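import Pool.Agent.Lib.MP_92e372_an.Gen.Main

namespace Pool.Agent.Lib.MP_92e372_an.JC

open Filter Topology Metric NormedSpace Pool.Agent.Lib.MP_92e372_an.Gen

section Alg

variable {A : Type*} [NormedRing A] [NormedAlgebra ℂ A]

/-- Closed unital subspaces that are closed under squares. -/
structure IsJS (S : Submodule ℂ A) : Prop where
  closed : IsClosed (S : Set A)
  one : (1 : A) ∈ S
  sq : ∀ x ∈ S, x * x ∈ S

variable {S : Submodule ℂ A}

theorem IsJS.jordan (hS : IsJS S) {x y : A} (hx : x ∈ S) (hy : y ∈ S) : x * y + y * x ∈ S := by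
  have e : x * y + y * x = (x + y) * (x + y) - x * x - y * y := by noncomm_ring
  rw [e]
  exact S.sub_mem (S.sub_mem (hS.sq _ (S.add_mem hx hy)) (hS.sq _ hx)) (hS.sq _ hy)

theorem mem_of_two {x : A} (h : x + x ∈ S) : x ∈ S := by
  have e : x = (2⁻¹ : ℂ) • (x + x) := by module
  rw [e]
  exact S.smul_mem _ h

theorem IsJS.triple (hS : IsJS S) {x y z : A} (hx : x ∈ S) (hy : y ∈ S) (hz : z ∈ S) :
    x * y * z + z * y * x ∈ S := by
  apply mem_of_two
  have e : x * y * z + z * y * x + (x * y * z + z * y * x)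
      = ((x * y + y * x) * z + z * (x * y + y * x)) + ((z * y + y * z) * x + x * (z * y + y * z))
        - ((x * z + z * x) * y + y * (x * z + z * x)) := by noncomm_ring
  rw [e]
  exact S.sub_mem (S.add_mem (hS.jordan (hS.jordan hx hy) hz) (hS.jordan (hS.jordan hz hy) hx))
    (hS.jordan (hS.jordan hx hz) hy)

theorem IsJS.conj (hS : IsJS S) {x y : A} (hx : x ∈ S) (hy : y ∈ S) : x * y * x ∈ S :=
  mem_of_two (hS.triple hx hy hx)

theorem IsJS.pow (hS : IsJS S) {x : A} (hx : x ∈ S) : ∀ n : ℕ, x ^ n ∈ S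
  | 0 => by rw [pow_zero]; exact hS.one
  | n + 1 => by
    apply mem_of_two
    have := hS.jordan hx (hS.pow hx n)
    rwa [← pow_succ, ← pow_succ'] at this

theorem IsJS.exp (hS : IsJS S) {x : A} (hx : x ∈ S) : exp x ∈ S := by
  rw [exp_eq_tsum ℂ]
  exact tsum_mem hS.closed fun n => S.smul_mem _ (hS.pow hx n)

/-- Resolvents outside the disc of radius the norm stay in `S`. -/
theorem IsJS.exists_inv [CompleteSpace A] (hS : IsJS S) {y : A} (hy : y ∈ S) {μ : ℂ}
    (h : ‖y‖ < ‖μ‖) : ∃ w ∈ S, (μ • 1 - y) * w = 1 ∧ w * (μ • 1 - y) = 1 := by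
  have hμ : μ ≠ 0 := norm_pos_iff.1 ((norm_nonneg _).trans_lt h)
  have h1 : ‖μ⁻¹ • y‖ < 1 := by
    rw [norm_smul, norm_inv, inv_mul_lt_one₀ (norm_pos_iff.2 hμ)]
    exact h
  have e : μ • (1 : A) - y = μ • (1 - μ⁻¹ • y) := by
    rw [smul_sub, smul_smul, mul_inv_cancel₀ hμ, one_smul]
  refine ⟨μ⁻¹ • ∑' n : ℕ, (μ⁻¹ • y) ^ n, S.smul_mem _
    (tsum_mem hS.closed fun n => hS.pow (S.smul_mem _ hy) n), ?_, ?_⟩
  · rw [e, smul_mul_assoc, mul_smul_comm, mul_neg_geom_series _ h1, smul_smul,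
      mul_inv_cancel₀ hμ, one_smul]
  · rw [e, smul_mul_assoc, mul_smul_comm, geom_series_mul_neg _ h1, smul_smul,
      inv_mul_cancel₀ hμ, one_smul]

theorem hasDerivAt_sub {f : ℂ → S} {d : S} {z : ℂ}
    (h : HasDerivAt (fun w => (f w : A)) (d : A) z) : HasDerivAt f d z := by
  rw [hasDerivAt_iff_isLittleO] at h ⊢
  refine Asymptotics.IsLittleO.of_norm_left ?_
  exact h.norm_left

end Alg

variable {B : Type*} [CStarAlgebra B]

/-- Closed unital subspaces of a C*-algebra closed under squares and the involution. -/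
structure IsJC (J : Submodule ℂ B) : Prop extends IsJS J where
  star : ∀ x ∈ J, star x ∈ J

variable {J : Submodule ℂ B}

theorem cfcHom_mem {M : Submodule ℂ B} (hM : IsClosed (M : Set B)) {h : B} (hh : IsSelfAdjoint h)
    (hp : ∀ n : ℕ, h ^ n ∈ M) (f : C(spectrum ℝ h, ℝ)) : cfcHom hh f ∈ M := by
  have hc : IsClosed {g : C(spectrum ℝ h, ℝ) | cfcHom hh g ∈ M} :=
    hM.preimage (cfcHom_continuous hh)
  have hsub : (polynomialFunctions (spectrum ℝ h) : Set C(spectrum ℝ h, ℝ))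
      ⊆ {g : C(spectrum ℝ h, ℝ) | cfcHom hh g ∈ M} := by
    rw [polynomialFunctions_coe]
    rintro _ ⟨p, rfl⟩
    have e : cfcHom hh (Polynomial.toContinuousMapOnAlgHom (spectrum ℝ h) p)
        = Polynomial.aeval h p := by
      rw [← cfc_polynomial p h, cfc_apply (R := ℝ) (p := IsSelfAdjoint) p.eval h]
      rfl
    show _ ∈ M
    rw [e, Polynomial.aeval_eq_sum_range]
    refine M.sum_mem fun i _ => ?_
    rw [← Complex.coe_smul]
    exact M.smul_mem _ (hp i)
  have hf : f ∈ closure (polynomialFunctions (spectrum ℝ h) : Set C(spectrum ℝ h, ℝ)) := by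
    rw [← Subalgebra.topologicalClosure_coe, polynomialFunctions.topologicalClosure]
    trivial
  exact closure_minimal hsub hc hf

theorem IsJC.re (hJ : IsJC J) {x : B} (hx : x ∈ J) : (realPart x : B) ∈ J := by
  rw [realPart_apply_coe, ← Complex.coe_smul]
  exact J.smul_mem _ (J.add_mem hx (hJ.star x hx))

theorem IsJC.im (hJ : IsJC J) {x : B} (hx : x ∈ J) : (imaginaryPart x : B) ∈ J := by
  rw [imaginaryPart_apply_coe, ← Complex.coe_smul]
  exact J.smul_mem _ (J.smul_mem _ (J.sub_mem hx (hJ.star x hx)))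

/-- The adjoint of the inverse of an invertible element of `J` lies in `J`. -/
theorem IsJC.star_inverse (hJ : IsJC J) {x : B} (hx : x ∈ J) (hu : IsUnit x) :
    Star.star (Ring.inverse x) ∈ J := by
  set h := x * Star.star x with hh
  have hsa : IsSelfAdjoint h := IsSelfAdjoint.mul_star_self x
  have hhu : IsUnit h := hu.mul hu.star
  let M : Submodule ℂ B := J.comap (LinearMap.mulRight ℂ x)
  have hM : IsClosed (M : Set B) := hJ.closed.preimage (continuous_mul_const x)
  have hcomm : ∀ n : ℕ, h ^ n * x * Star.star x * x = h ^ (n + 1) * x := fun n => by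
    rw [pow_succ, hh, mul_assoc _ x]
  have hp : ∀ n : ℕ, h ^ n ∈ M := by
    intro n
    induction n with
    | zero => simpa [M] using hx
    | succ n ih =>
      have h1 := hJ.toIsJS.triple hx (hJ.star x hx) (show h ^ n * x ∈ J from ih)
      rw [hcomm, ← hh, ← mul_assoc, ← pow_succ'] at h1
      exact mem_of_two (S := J) h1
  have hcont : ContinuousOn (fun t : ℝ => t⁻¹) (spectrum ℝ h) :=
    continuousOn_inv₀.mono fun t ht h0 => spectrum.zero_notMem ℝ hhu (by rwa [h0] at ht)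
  have h2 := cfcHom_mem hM hsa hp ⟨_, hcont.domRestrict⟩
  rw [← cfc_apply (R := ℝ) (p := IsSelfAdjoint) (fun t : ℝ => t⁻¹) h,
    cfc_ringInverse_id (R := ℝ) (p := IsSelfAdjoint) h hhu] at h2
  have h3 : Ring.inverse h * x = Star.star (Ring.inverse x) := by
    obtain ⟨u, rfl⟩ := hu
    have : h = ((u * Star.star u : Bˣ) : B) := by simp [hh]
    rw [this, Ring.inverse_unit, Ring.inverse_unit, mul_inv_rev, Units.val_mul, mul_assoc,
      Units.inv_mul, mul_one, ← Units.coe_star_inv]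
  rw [← h3]
  exact h2

/-- If all small perturbations inside `J` of a unit are units, its inverse is bounded. -/
theorem IsJC.norm_inverse_le [Nontrivial B] (hJ : IsJC J) {x : B} (hxJ : x ∈ J) {K ε : ℝ}
    (hK : 0 < K) (hε : 0 < ε) (h : ∀ c ∈ J, K * ‖c‖ < ε → IsUnit (x - c)) :
    ‖Ring.inverse x‖ ≤ K / ε := by
  have hx : IsUnit x := by simpa using h 0 J.zero_mem (by simpa using hε)
  have hsJ := hJ.star_inverse hxJ hx
  set w := Ring.inverse x with hw
  by_contra hlt
  rw [not_le] at hlt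
  have hw0 : 0 < ‖w‖ := (div_pos hK hε).trans hlt
  obtain ⟨μ, hμ, hμ'⟩ := spectrum.exists_nnnorm_eq_spectralRadius (w * Star.star w)
  rw [(IsSelfAdjoint.mul_star_self w).spectralRadius_eq_nnnorm] at hμ'
  have hμn : ‖μ‖ = ‖w‖ * ‖w‖ := by
    have : ‖μ‖₊ = ‖w * Star.star w‖₊ := by exact_mod_cast hμ'
    rw [← CStarRing.norm_self_mul_star]
    exact congrArg NNReal.toReal this
  have hμ0 : μ ≠ 0 := by
    rw [← norm_pos_iff, hμn]; positivity
  have h1 := h (μ⁻¹ • Star.star w) (J.smul_mem _ hsJ) (by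
    rw [norm_smul, norm_inv, hμn, norm_star]
    rw [div_lt_iff₀ hε] at hlt
    have : K * ((‖w‖ * ‖w‖)⁻¹ * ‖w‖) = K / ‖w‖ := by field_simp
    rw [this, div_lt_iff₀ hw0]
    linarith)
  apply spectrum.mem_iff.1 hμ
  have e : algebraMap ℂ B μ - w * Star.star w
      = algebraMap ℂ B μ * (w * (x - μ⁻¹ • Star.star w)) := by
    rw [mul_sub, hw, Ring.inverse_mul_cancel _ hx, ← hw, ← Algebra.smul_def, smul_sub,
      mul_smul_comm, smul_smul, mul_inv_cancel₀ hμ0, one_smul, Algebra.algebraMap_eq_smul_one]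
  rw [e]
  exact ((IsUnit.mk0 μ hμ0).map _).mul (hx.ringInverse.mul h1)

end Pool.Agent.Lib.MP_92e372_an.JC
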