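import Pool.Agent.Lib.MP_92e372_an.JC.Basic

namespace Pool.Agent.Lib.MP_92e372_an.JC

open Filter Topology Metric Pool.Agent.Lib.MP_92e372_an.Gen

variable {E B : Type*} [NormedAddCommGroup E] [NormedSpace ℂ E] [CStarAlgebra B] [Nontrivial B]

/-- An element `b` with `ρ(x) ≤ ‖x - b‖` for all `x` in `J` has zero real part. -/
theorem IsJC.realPart_eq_zero {J : Submodule ℂ B} (hJ : IsJC J) {b : B} (hbJ : b ∈ J)
    (h : ∀ x ∈ J, ∀ μ ∈ spectrum ℂ x, ‖μ‖ ≤ ‖x - b‖) : (realPart b : B) = 0 := by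
  have huJ := hJ.re hbJ
  set u : B := (realPart b : selfAdjoint B).1 with hu
  set v : B := (imaginaryPart b : selfAdjoint B).1 with hv
  have hus : IsSelfAdjoint u := (realPart b).2
  have hvs : IsSelfAdjoint v := (imaginaryPart b).2
  have hb : b = u + Complex.I • v := (realPart_add_I_smul_imaginaryPart b).symm
  obtain ⟨μ, hμ, hμ'⟩ := spectrum.exists_nnnorm_eq_spectralRadius u
  rw [hus.spectralRadius_eq_nnnorm] at hμ'
  have hμn : ‖μ‖ = ‖u‖ := by
    have : ‖μ‖₊ = ‖u‖₊ := by exact_mod_cast hμ'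
    exact congrArg NNReal.toReal this
  have hre : μ = (μ.re : ℂ) := hus.mem_spectrum_eq_re hμ
  have key : ∀ t : ℝ, |μ.re + t| ≤ √(‖v‖ ^ 2 + t ^ 2) := by
    intro t
    have h1 : μ + t ∈ spectrum ℂ (u + algebraMap ℂ B t) := by
      rw [← spectrum.add_singleton_eq]
      exact Set.add_mem_add hμ rfl
    have h2 := h _ (J.add_mem huJ (by
      rw [Algebra.algebraMap_eq_smul_one]; exact J.smul_mem _ hJ.one)) _ h1
    have h3 : u + algebraMap ℂ B t - b = (-Complex.I) • (v + algebraMap ℂ B (Complex.I * t)) := by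
      rw [hb]
      simp only [Algebra.algebraMap_eq_smul_one, smul_add, smul_smul]
      have : -Complex.I * (Complex.I * t) = t := by
        linear_combination (-(t : ℂ)) * Complex.I_sq
      rw [this]
      module
    rw [h3, norm_smul, norm_neg, Complex.norm_I, one_mul, hre, ← Complex.ofReal_add,
      Complex.norm_real, Real.norm_eq_abs] at h2
    exact h2.trans (Real.le_sqrt_of_sq_le (norm_add_I_sq_le hvs t))
  have h1 : μ.re ≤ 0 := le_zero_of_forall_sq (c := ‖v‖) fun R _ => by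
    simpa using (le_abs_self _).trans (key R)
  have h2 : -μ.re ≤ 0 := le_zero_of_forall_sq (c := ‖v‖) fun R _ => by
    have := (neg_le_abs _).trans (key (-R))
    rw [neg_sq] at this
    linarith
  have h3 : μ.re = 0 := by linarith
  rw [← norm_eq_zero, ← hμn, hre, h3]
  simp

theorem sep_bound (φ : E →ₗ[ℂ] B) {r : ℝ} (hr : 0 < r)
    (hρ : ∀ a, ∀ μ ∈ spectrum ℂ (φ a), r * ‖μ‖ ≤ ‖a‖)
    {u : ℕ → E} {b : B} (hu0 : Tendsto u atTop (𝓝 0))
    (hub : Tendsto (fun n => φ (u n)) atTop (𝓝 b)) (x : B) (hx : x ∈ LinearMap.range φ) (μ : ℂ)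
    (hμ : μ ∈ spectrum ℂ x) : ‖μ‖ ≤ ‖x - b‖ := by
  obtain ⟨a, rfl⟩ := hx
  refine norm_le_of_families (B := B) (z0 := 1) one_ne_zero (norm_nonneg _) (M := (‖a‖ + 1) / r)
    (by positivity) fun ε hε => ?_
  have hb1 : 0 < ‖b‖ + 1 := by positivity
  refine ⟨min 1 (ε / 2 / (‖b‖ + 1)), lt_min one_pos (by positivity), by simp, fun R hR => ?_⟩
  have hR1 : 1 ≤ R := by simpa using hR
  have e1 : ∀ᶠ n in atTop, ‖u n‖ < 1 / (R + 1) := by
    have := hu0.norm
    rw [norm_zero] at this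
    exact this.eventually (gt_mem_nhds (by positivity))
  have e2 : ∀ᶠ n in atTop, ‖φ (u n) - b‖ < min 1 (ε / 2) := by
    have := tendsto_iff_norm_sub_tendsto_zero.1 hub
    exact this.eventually (gt_mem_nhds (lt_min one_pos (by positivity)))
  obtain ⟨n, hn1, hn2⟩ := (e1.and e2).exists
  have hn3 : ‖φ (u n) - b‖ < 1 := hn2.trans_le (min_le_left _ _)
  have hn4 : ‖φ (u n) - b‖ < ε / 2 := hn2.trans_le (min_le_right _ _)
  refine ⟨fun z => z • φ (u n) + (φ a - φ (u n)), by fun_prop, by simpa using hμ,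
    fun z hz => ?_, fun z hz ν hν => ?_⟩
  · have h2 : ‖φ (u n)‖ ≤ ‖b‖ + 1 := by linarith [norm_sub_norm_le (φ (u n)) b]
    have h3 : ‖z‖ * ‖φ (u n)‖ ≤ ε / 2 := by
      calc ‖z‖ * ‖φ (u n)‖ ≤ (ε / 2 / (‖b‖ + 1)) * (‖b‖ + 1) := by
            gcongr
            rw [hz]; exact min_le_right _ _
        _ = ε / 2 := by field_simp
    have h4 : ‖φ a - φ (u n)‖ ≤ ‖φ a - b‖ + ‖φ (u n) - b‖ := by
      have : φ a - φ (u n) = (φ a - b) - (φ (u n) - b) := by abel
      rw [this]; exact norm_sub_le _ _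
    calc _ ≤ ‖z • φ (u n)‖ + ‖φ a - φ (u n)‖ := norm_add_le _ _
      _ ≤ _ := by rw [norm_smul]; linarith
  · have e : z • φ (u n) + (φ a - φ (u n)) = φ (a + (z - 1) • u n) := by
      simp only [map_add, map_smul]; module
    replace hν : ν ∈ spectrum ℂ (φ (a + (z - 1) • u n)) := e ▸ hν
    have h2 := hρ _ _ hν
    have h3 : ‖(z - 1) • u n‖ < 1 := by
      rw [norm_smul]
      have h4 : ‖z - 1‖ ≤ R + 1 := by
        refine (norm_sub_le _ _).trans ?_
        rw [hz, norm_one]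
      calc ‖z - 1‖ * ‖u n‖ ≤ (R + 1) * ‖u n‖ := by gcongr
        _ < (R + 1) * (1 / (R + 1)) := by gcongr
        _ = 1 := by field_simp
    rw [lt_div_iff₀ hr]
    linarith [norm_add_le a ((z - 1) • u n)]

/-- Automatic continuity. -/
theorem continuous_of_radius [CompleteSpace E] (φ : E →ₗ[ℂ] B) (hJ : IsJC (LinearMap.range φ))
    {r : ℝ} (hr : 0 < r) (hρ : ∀ a, ∀ μ ∈ spectrum ℂ (φ a), r * ‖μ‖ ≤ ‖a‖) : Continuous φ := by
  refine φ.continuous_of_seq_closed_graph fun u x y hux huy => ?_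
  have h2 : Tendsto (fun n => u n - x) atTop (𝓝 0) := tendsto_sub_nhds_zero_iff.2 hux
  have h3 : Tendsto (fun n => φ (u n - x)) atTop (𝓝 (y - φ x)) := by
    simp only [map_sub]
    exact huy.sub_const _
  have hJ3 : y - φ x ∈ LinearMap.range φ :=
    hJ.closed.mem_of_tendsto h3 (Eventually.of_forall fun n => ⟨_, rfl⟩)
  have h4 : Tendsto (fun n => (-Complex.I) • (u n - x)) atTop (𝓝 0) := by
    simpa using h2.const_smul (-Complex.I)
  have h5 : Tendsto (fun n => φ ((-Complex.I) • (u n - x))) atTop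
      (𝓝 ((-Complex.I) • (y - φ x))) := by
    simp only [map_smul]
    exact h3.const_smul _
  have r1 := hJ.realPart_eq_zero hJ3 (sep_bound φ hr hρ h2 h3)
  have r2 := hJ.realPart_eq_zero (Submodule.smul_mem _ _ hJ3) (sep_bound φ hr hρ h4 h5)
  have r3 : (imaginaryPart (y - φ x) : B) = 0 := by
    rw [neg_smul, map_neg, realPart_I_smul] at r2
    simpa using r2
  rw [← sub_eq_zero, ← realPart_add_I_smul_imaginaryPart (y - φ x), r1, r3]
  simp

omit [Nontrivial B] in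
/-- The open mapping theorem for a closed range. -/
theorem exists_preimage_le [CompleteSpace E] (φ : E →L[ℂ] B)
    (hc : IsClosed (LinearMap.range (φ : E →ₗ[ℂ] B) : Set B)) :
    ∃ C : ℝ, 0 < C ∧ ∀ x ∈ LinearMap.range (φ : E →ₗ[ℂ] B), ∃ y, φ y = x ∧ ‖y‖ ≤ C * ‖x‖ := by
  have : CompleteSpace (LinearMap.range (φ : E →ₗ[ℂ] B)) := hc.completeSpace_coe
  let ψ : E →L[ℂ] LinearMap.range (φ : E →ₗ[ℂ] B) := φ.codRestrict _ fun y => ⟨y, rfl⟩
  have hs : Function.Surjective ψ := by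
    rintro ⟨_, y, rfl⟩
    exact ⟨y, rfl⟩
  obtain ⟨C, hC, hC'⟩ := ψ.exists_preimage_norm_le hs
  refine ⟨C, hC, fun x hx => ?_⟩
  obtain ⟨y, h1, h2⟩ := hC' ⟨x, hx⟩
  exact ⟨y, congrArg Subtype.val h1, h2⟩

end Pool.Agent.Lib.MP_92e372_an.JC
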