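import Pool.Agent.Lib.MP_92e372_an.JC.Cont

namespace Pool.Agent.Lib.MP_92e372_an.JC

open Filter Topology Metric Pool.Agent.Lib.MP_92e372_an.Gen

variable {E B : Type*} [NormedAddCommGroup E] [NormedSpace ℂ E] [CStarAlgebra B] [Nontrivial B]

variable {φ : E →L[ℂ] B} {o : E} {U : ℂ → E →ₗ[ℂ] E} {r : ℝ}

theorem isUnit_of_im (hr : 0 < r) (h1 : φ o = 1) (h0 : ∀ y, U 0 y = y)
    (hd : ∀ y, Differentiable ℂ fun z => φ (U z y))
    (hσ : ∀ z y (μ : ℂ), ‖y‖ < r * ‖μ‖ → IsUnit (φ (U z (μ • o - y))))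
    {y : E} {b c : B} (hb : IsSelfAdjoint b) (hy : φ y = b + c) (z0 : ℂ) {μ : ℂ}
    (hμ : ‖c‖ < μ.im) : IsUnit (φ (U z0 (μ • o - y))) := by
  have hg : ∀ z, IsUnit (φ (U z o)) := fun z => by simpa using hσ z 0 1 (by simpa using hr)
  let Ψ : ℂ → B := fun z => Ring.inverse (φ (U z o)) * φ (U z y)
  have hΨ : ∀ z (ν : ℂ), φ (U z (ν • o - y)) = φ (U z o) * (algebraMap ℂ B ν - Ψ z) := by
    intro z ν
    rw [mul_sub, Ring.mul_inverse_cancel_left _ _ (hg z), map_sub, map_sub, map_smul, map_smul,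
      Algebra.algebraMap_eq_smul_one, mul_smul_comm, mul_one]
  have hΨd : Differentiable ℂ Ψ := ((hd o).inverse hg).mul (hd y)
  have hρ : ∀ z, ∀ ν ∈ spectrum ℂ (Ψ z), ‖ν‖ ≤ ‖y‖ / r := by
    intro z ν hν
    by_contra hlt
    rw [not_le, div_lt_iff₀' hr] at hlt
    have h2 := hσ z y ν hlt
    rw [hΨ] at h2
    exact spectrum.mem_iff.1 hν ((hg z).mul_left_iff.1 h2)
  rw [hΨ]
  refine (hg z0).mul ?_
  by_contra hnu
  have hmem : μ ∈ spectrum ℂ (Ψ z0) := spectrum.mem_iff.2 hnu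
  refine absurd (le_zero_of_forall_sq (a := μ.im) (d := ‖c‖) (c := ‖b‖) fun R hR => ?_)
    (not_le.2 hμ)
  have h1' : μ + Complex.I * R ∈ spectrum ℂ (Ψ z0 + algebraMap ℂ B (Complex.I * R)) := by
    rw [← spectrum.add_singleton_eq]
    exact Set.add_mem_add hmem rfl
  have h2 := spectral_liouville (g := fun z => Ψ z + algebraMap ℂ B (Complex.I * R))
    (hΨd.add_const _) (M := ‖y‖ / r + ‖Complex.I * R‖) (fun z ν hν => by
      rw [← spectrum.add_singleton_eq] at hν
      obtain ⟨ν', hν', _, rfl, rfl⟩ := hν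
      exact (norm_add_le _ _).trans (add_le_add (hρ z _ hν') le_rfl)) h1'
  have h3 : μ.im + R ≤ ‖μ + Complex.I * R‖ := by
    have := Complex.im_le_norm (μ + Complex.I * R)
    simpa using this
  have h4 : ‖Ψ 0 + algebraMap ℂ B (Complex.I * R)‖ ≤ √(‖b‖ ^ 2 + R ^ 2) + ‖c‖ := by
    have e : Ψ 0 = b + c := by simp only [Ψ, h0, h1, hy, Ring.inverse_one, one_mul]
    rw [e, add_right_comm]
    exact (norm_add_le _ _).trans
      (add_le_add (Real.le_sqrt_of_sq_le (norm_add_I_sq_le hb R)) le_rfl)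
  linarith

theorem zero_product [CompleteSpace E] {m : E →ₗ[ℂ] E} {G : ℝ} (hr : 0 < r)
    (hJ : IsJC (LinearMap.range (φ : E →ₗ[ℂ] B))) (h1 : φ o = 1) (h0 : ∀ y, U 0 y = y)
    (hinv : ∀ z y, U z (U (-z) y) = y) (hG0 : 0 ≤ G)
    (hG : ∀ z : ℂ, ‖z‖ ≤ 1 → ∀ y, ‖U z y‖ ≤ G * ‖y‖)
    (hd : ∀ y, Differentiable ℂ fun z => φ (U z y))
    (hδ : ∀ y, HasDerivAt (fun z => φ (U z y)) (φ (m y)) 0)
    (hσ : ∀ z y (μ : ℂ), ‖y‖ < r * ‖μ‖ → IsUnit (φ (U z (μ • o - y))))
    {y : E} (hy : IsSelfAdjoint (φ y)) {u v : B} (hu : u * φ y = 0) (hv : φ y * v = 0) :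
    u * φ (m y) * v = 0 := by
  obtain ⟨C, hC, hC'⟩ := exists_preimage_le φ hJ.closed
  set K : ℝ := ‖φ‖ * (G * C) + 1 with hKdef
  have hK : 0 < K := by positivity
  have key : ∀ ε : ℝ, 0 < ε →
      ‖u * φ (m y) * v‖ ≤ (‖u‖ * K * ‖v‖ + ‖u * φ (m o) * v‖) * ε := by
    intro ε hε
    let x : ℂ → B := fun z => φ (U z ((Complex.I * ε) • o - y))
    have hunit : ∀ z : ℂ, ‖z‖ ≤ 1 → ∀ c ∈ LinearMap.range (φ : E →ₗ[ℂ] B), K * ‖c‖ < ε →
        IsUnit (x z - c) := by
      intro z hz c hcJ hc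
      obtain ⟨y', h2, h3⟩ := hC' c hcJ
      have h4 : ‖φ (U (-z) y')‖ ≤ K * ‖c‖ := by
        have g1 := hG (-z) (by simpa using hz) y'
        calc ‖φ (U (-z) y')‖ ≤ ‖φ‖ * (G * (C * ‖c‖)) := by
              refine (φ.le_opNorm _).trans ?_
              gcongr
              refine g1.trans ?_
              gcongr
          _ ≤ _ := by rw [hKdef]; nlinarith [norm_nonneg c]
      have h5 := isUnit_of_im hr h1 h0 hd hσ hy (map_add φ y (U (-z) y')) z (μ := Complex.I * ε)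
        (by simp; linarith)
      rwa [← sub_sub, map_sub (U z), hinv, map_sub φ, h2] at h5
    have hunit' : ∀ z : ℂ, ‖z‖ ≤ 1 → IsUnit (x z) := fun z hz => by
      simpa using hunit z hz 0 (Submodule.zero_mem _) (by simpa using hε)
    have hxd : Differentiable ℂ x := hd _
    have hF : DiffContOnCl ℂ (fun z => Ring.inverse (x z)) (ball 0 1) := by
      apply DifferentiableOn.diffContOnCl
      rw [closure_ball _ one_ne_zero]
      exact hxd.differentiableOn.inverse fun z hz => hunit' z (by simpa using hz)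
    have hCa := Complex.norm_deriv_le_of_forall_mem_sphere_norm_le one_pos hF (C := K / ε)
      (fun z hz => hJ.norm_inverse_le ⟨_, rfl⟩ hK hε (hunit z (by simp at hz; exact hz.le)))
    obtain ⟨W, hW⟩ := hunit' 0 (by simp)
    set d : B := φ (m ((Complex.I * ε) • o - y)) with hddef
    have hder : HasDerivAt (fun z => Ring.inverse (x z)) (-((↑W⁻¹ : B) * d * ↑W⁻¹)) 0 := by
      have h2 : HasDerivAt x d 0 := hδ _
      have h3 := (hW ▸ hasFDerivAt_ringInverse (𝕜 := ℂ) W).comp_hasDerivAt 0 h2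
      simpa using! h3
    rw [hder.deriv, div_one, norm_neg] at hCa
    have hWx : (W : B) = algebraMap ℂ B (Complex.I * ε) - φ y := by
      rw [hW]
      simp only [x, h0, map_sub, map_smul, h1, Algebra.algebraMap_eq_smul_one]
    have e1 : u = (Complex.I * ε) • (u * ↑W⁻¹) := by
      have : u * W = (Complex.I * ε) • u := by
        rw [hWx, mul_sub, hu, sub_zero, Algebra.algebraMap_eq_smul_one, mul_smul_comm, mul_one]
      rw [← smul_mul_assoc, ← this, Units.mul_inv_cancel_right]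
    have e2 : v = (Complex.I * ε) • (↑W⁻¹ * v) := by
      have : W * v = (Complex.I * ε) • v := by
        rw [hWx, sub_mul, hv, sub_zero, Algebra.algebraMap_eq_smul_one, smul_mul_assoc, one_mul]
      rw [← mul_smul_comm, ← this, Units.inv_mul_cancel_left]
    have e3 : u * d * v = (Complex.I * ε) ^ 2 • (u * ((↑W⁻¹ : B) * d * ↑W⁻¹) * v) := by
      conv_lhs => rw [e1, e2]
      simp only [smul_mul_assoc, mul_smul_comm, smul_smul, mul_assoc, sq]
    have n1 : ‖u * d * v‖ ≤ ‖u‖ * K * ‖v‖ * ε := by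
      rw [e3, norm_smul, norm_pow, norm_mul, Complex.norm_I, one_mul, Complex.norm_real,
        Real.norm_of_nonneg hε.le]
      calc ε ^ 2 * ‖u * ((↑W⁻¹ : B) * d * ↑W⁻¹) * v‖ ≤ ε ^ 2 * (‖u‖ * (K / ε) * ‖v‖) := by
            gcongr
            refine (norm_mul_le _ _).trans ?_
            gcongr
            refine (norm_mul_le _ _).trans ?_
            gcongr
        _ = _ := by field_simp
    have e4 : u * φ (m y) * v = (Complex.I * ε) • (u * φ (m o) * v) - u * d * v := by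
      rw [hddef, map_sub, map_sub, map_smul, map_smul, mul_sub, sub_mul, mul_smul_comm,
        smul_mul_assoc, sub_sub_cancel]
    rw [e4]
    refine (norm_sub_le _ _).trans ?_
    rw [norm_smul, norm_mul, Complex.norm_I, one_mul, Complex.norm_real,
      Real.norm_of_nonneg hε.le]
    nlinarith
  rw [← norm_le_zero_iff]
  refine le_of_forall_pos_le_add fun ε hε => ?_
  set T := ‖u‖ * K * ‖v‖ + ‖u * φ (m o) * v‖ with hT
  have hT0 : 0 ≤ T := by positivity
  have hp : 0 < T + 1 := by positivity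
  have := key (ε / (T + 1)) (by positivity)
  refine this.trans ?_
  rw [zero_add, ← mul_div_assoc, div_le_iff₀ hp]
  nlinarith

end Pool.Agent.Lib.MP_92e372_an.JC
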