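import Pool.Agent.Lib.MP_92e372_an.JC.Main

namespace Pool.Agent.Lib.MP_92e372_an.JC

open Filter Topology Metric NormedSpace Pool.Agent.Lib.MP_92e372_an.Gen

variable {E : Type*} [NormedAddCommGroup E] [NormedSpace ℂ E]

/-- Unital Jordan products. -/
structure IsJB (m : E →L[ℂ] E →L[ℂ] E) (e : E) : Prop where
  comm : ∀ a b, m a b = m b a
  one : ∀ a, m e a = a
  jordan : ∀ a b, m (m a b) (m a a) = m a (m b (m a a))

/-- The quadratic operator. -/
noncomputable def uop (m : E →L[ℂ] E →L[ℂ] E) (x : E) : E →L[ℂ] E :=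
  m x * m x + m x * m x - m (m x x)

variable {m : E →L[ℂ] E →L[ℂ] E} {e : E}

theorem uop_apply (x v : E) : uop m x v = m x (m x v) + m x (m x v) - m (m x x) v := rfl

/-- The linearised Jordan identity. -/
theorem IsJB.lin (h : IsJB m e) (x y z w : E) :
    m (m x w) (m y z) + m (m y w) (m x z) + m (m z w) (m x y)
      = m x (m w (m y z)) + m y (m w (m x z)) + m z (m w (m x y)) := by
  have e1 := h.jordan (x + y + z) w
  have e2 := h.jordan (x + y) w
  have e3 := h.jordan (x + z) w
  have e4 := h.jordan (y + z) w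
  have e5 := h.jordan x w
  have e6 := h.jordan y w
  have e7 := h.jordan z w
  simp only [map_add, add_apply, h.comm y x, h.comm z x, h.comm z y] at e1 e2 e3 e4
  linear_combination (norm := module) (2⁻¹ : ℂ) • (e1 - e2 - e3 - e4 + e5 + e6 + e7)

theorem IsJB.uop_one (h : IsJB m e) : uop m e = 1 := by
  ext v
  simp [uop_apply, h.one]

/-- The infinitesimal form of the fundamental formula. -/
theorem IsJB.inf (h : IsJB m e) (a x : E) :
    (m (m a x) * m x + m x * m (m a x)) + (m (m a x) * m x + m x * m (m a x))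
      - m (m (m a x) x + m x (m a x)) = m a * uop m x + uop m x * m a := by
  ext v
  have e1 := h.lin x a v x
  have e2 := h.lin x x a v
  simp only [add_apply, sub_apply, map_add, map_sub, uop_apply, mul_apply_eq_comp]
  rw [h.comm v x, h.comm x a, h.comm (m x x) (m a v), h.comm (m x v) (m a x),
    h.comm v (m x (m a x))] at e1
  rw [h.comm x a, h.comm (m x v) (m a x), h.comm v (m a x), h.comm v (m x x)] at e2
  rw [h.comm (m a x) x, h.comm (m x x) (m a v)]
  linear_combination (norm := module) (2 : ℂ) • e1 - e2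

/-- Elements with an invertible quadratic operator are invertible. -/
theorem IsJB.exists_inv (h : IsJB m e) {x : E} (hx : IsUnit (uop m x)) :
    ∃ y, m x y = e ∧ m (m x x) y = x := by
  obtain ⟨W, hW⟩ := hx
  have hinj : Function.Injective (uop m x) := fun p q hpq => by
    have e1 : ∀ v, (↑W⁻¹ : E →L[ℂ] E) (uop m x v) = v := fun v => by
      rw [← hW, ← mul_apply_eq_comp, Units.inv_mul]; rfl
    rw [← e1 p, hpq, e1]
  have hy : uop m x ((↑W⁻¹ : E →L[ℂ] E) x) = x := by
    rw [← hW, ← mul_apply_eq_comp, Units.mul_inv]; rfl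
  have hc : ∀ v, m (m x x) (m x v) = m x (m (m x x) v) := fun v => by
    rw [h.comm (m x x) (m x v), h.jordan, h.comm v]
  set y := (↑W⁻¹ : E →L[ℂ] E) x
  have c1 : ∀ v, uop m x (m x v) = m x (uop m x v) := fun v => by
    simp only [uop_apply, map_add, map_sub, hc]
  have c2 : ∀ v, uop m x (m (m x x) v) = m (m x x) (uop m x v) := fun v => by
    simp only [uop_apply, map_add, map_sub, hc]
  refine ⟨y, hinj ?_, hinj ?_⟩
  · rw [c1, hy, uop_apply, h.comm x e, h.one, h.comm _ e, h.one]
    abel
  · rw [c2, hy, uop_apply, h.comm (m x x) x]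
    abel

theorem hasDerivAt_uop {x : ℂ → E} {d : E} {z : ℂ} (hx : HasDerivAt x d z) :
    HasDerivAt (fun w => uop m (x w))
      ((m d * m (x z) + m (x z) * m d) + (m d * m (x z) + m (x z) * m d)
        - m (m d (x z) + m (x z) d)) z := by
  have d1 : HasDerivAt (fun w => m (x w)) (m d) z := m.hasFDerivAt.comp_hasDerivAt z hx
  have d2 : HasDerivAt (fun w => m (x w) (x w)) (m d (x z) + m (x z) d) z := d1.clm_apply hx
  have d3 : HasDerivAt (fun w => m (m (x w) (x w))) (m (m d (x z) + m (x z) d)) z :=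
    m.hasFDerivAt.comp_hasDerivAt z d2
  exact ((d1.mul d1).add (d1.mul d1)).sub d3

variable [CompleteSpace E]

theorem IsJB.exists_radius (h : IsJB m e) :
    ∃ r : ℝ, 0 < r ∧ ∀ y : E, ‖y‖ < r → IsUnit (uop m (e - y)) := by
  have hc : Continuous fun y : E => uop m (e - y) := by
    unfold uop
    fun_prop
  have ho : IsOpen {y : E | IsUnit (uop m (e - y))} := Units.isOpen.preimage hc
  obtain ⟨r, hr, hr'⟩ := Metric.isOpen_iff.1 ho 0 (by
    show IsUnit (uop m (e - 0))
    rw [sub_zero, h.uop_one]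
    exact isUnit_one)
  exact ⟨r, hr, fun y hy => hr' (by simpa using hy)⟩

/-- The exponential of a multiplication operator keeps quadratic operators invertible. -/
theorem IsJB.isUnit_uop_exp (h : IsJB m e) (a : E) {x : E} (hx : IsUnit (uop m x)) (z : ℂ) :
    IsUnit (uop m (exp (z • m a) x)) := by
  let _ : NormedAlgebra ℚ (E →L[ℂ] E) := .restrictScalars ℚ ℂ _
  set L := m a with hL
  let T : ℂ → E →L[ℂ] E := fun z => exp (z • L)
  let T' : ℂ → E →L[ℂ] E := fun z => exp (z • (-L))
  have hT : ∀ z, HasDerivAt T (L * T z) z := fun z => hasDerivAt_exp_smul_const' L z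
  have hT1 : ∀ z, HasDerivAt T' (T' z * (-L)) z := fun z => hasDerivAt_exp_smul_const (-L) z
  have hT2 : ∀ z, HasDerivAt T' ((-L) * T' z) z := fun z => hasDerivAt_exp_smul_const' (-L) z
  have hd : ∀ z, HasDerivAt (fun z => T' z * uop m (T z x) * T' z) 0 z := by
    intro z
    have d1 : HasDerivAt (fun z => T z x) (m a (T z x)) z := by
      simpa using (hT z).clm_apply (hasDerivAt_const z x)
    have d2 := hasDerivAt_uop (m := m) d1
    rw [h.inf] at d2
    have d3 := ((hT1 z).mul d2).mul (hT2 z)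
    have e0 : (T' z * -L * uop m (T z x) + T' z * (L * uop m (T z x) + uop m (T z x) * L)) * T' z
        + T' z * uop m (T z x) * (-L * T' z) = 0 := by noncomm_ring
    rw [← e0]
    exact d3
  have hconst := is_const_of_deriv_eq_zero (fun z => (hd z).differentiableAt)
    (fun z => (hd z).deriv) z 0
  have h0 : T' 0 * uop m (T 0 x) * T' 0 = uop m x := by simp [T, T']
  rw [h0] at hconst
  have hu : IsUnit (T' z) := isUnit_exp _
  rw [← hconst] at hx
  exact hu.mul_left_iff.1 (hu.mul_right_iff.1 hx)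

theorem IsJB.main {B : Type*} [CStarAlgebra B] [Nontrivial B] (h : IsJB m e) (φ : E →ₗ[ℂ] B)
    (hJ : IsJC (LinearMap.range φ)) (h1 : φ e = 1)
    (hu : ∀ a b, m a b = e → m (m a a) b = a → IsUnit (φ a)) (a : E) :
    φ (m a a) = φ a * φ a := by
  let _ : NormedAlgebra ℚ (E →L[ℂ] E) := .restrictScalars ℚ ℂ _
  obtain ⟨r, hr, hr'⟩ := h.exists_radius
  have hσ : ∀ (a : E) (z : ℂ) (y : E) (μ : ℂ), ‖y‖ < r * ‖μ‖ →
      IsUnit (φ (exp (z • m a) (μ • e - y))) := by
    intro a z y μ hμ
    have hμ0 : μ ≠ 0 := by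
      rintro rfl
      simp only [norm_zero, mul_zero] at hμ
      exact absurd hμ (not_lt.2 (norm_nonneg _))
    have h2 : ‖μ⁻¹ • y‖ < r := by
      rw [norm_smul, norm_inv, inv_mul_lt_iff₀ (norm_pos_iff.2 hμ0), mul_comm]
      exact hμ
    obtain ⟨w, hw1, hw2⟩ := h.exists_inv (h.isUnit_uop_exp a (hr' _ h2) z)
    have e1 : μ • e - y = μ • (e - μ⁻¹ • y) := by
      rw [smul_sub, smul_smul, mul_inv_cancel₀ hμ0, one_smul]
    rw [e1, map_smul, map_smul, Algebra.smul_def]
    exact ((IsUnit.mk0 μ hμ0).map _).mul (hu _ w hw1 hw2)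
  have hc : Continuous φ := by
    refine continuous_of_radius φ hJ hr fun y μ hμ => ?_
    by_contra hlt
    rw [not_le] at hlt
    have h2 := hσ 0 0 y μ hlt
    rw [zero_smul, exp_zero, one_apply_eq_self, map_sub, map_smul, h1,
      ← Algebra.algebraMap_eq_smul_one] at h2
    exact spectrum.mem_iff.1 hμ h2
  let ψ : E →L[ℂ] B := ⟨φ, hc⟩
  have hz : ∀ a y u v, IsSelfAdjoint (ψ y) → u * ψ y = 0 → ψ y * v = 0 →
      u * ψ (m a y) * v = 0 := by
    intro a y u v hy hu' hv'
    let T : ℂ → E →L[ℂ] E := fun z => exp (z • m a)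
    have hT : ∀ z, HasDerivAt T (T z * m a) z := fun z => hasDerivAt_exp_smul_const (m a) z
    have hTd : Differentiable ℂ T := fun z => (hT z).differentiableAt
    have hT0 : T 0 = 1 := by simp [T]
    have hinv : ∀ z, T z * T (-z) = 1 := fun z => by
      rw [← exp_add_of_commute (((Commute.refl (m a)).smul_left _).smul_right _), ← add_smul]
      simp
    have hUd : ∀ z y, HasDerivAt (fun z => T z y) (T z (m a y)) z := fun z y => by
      simpa using (hT z).clm_apply (hasDerivAt_const z y)
    obtain ⟨G, hG⟩ := (isCompact_closedBall (0 : ℂ) 1).exists_bound_of_continuousOn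
      hTd.continuous.continuousOn
    refine zero_product (φ := ψ) (U := fun z => (T z : E →ₗ[ℂ] E)) (o := e)
      (m := (m a : E →ₗ[ℂ] E)) (G := |G|) hr hJ h1 (fun y => by rw [hT0]; rfl) ?_ (abs_nonneg _)
      ?_ ?_ ?_ (hσ a) hy hu' hv'
    · intro z y
      show (T z * T (-z)) y = y
      rw [hinv]; rfl
    · intro z hz y
      refine ((T z).le_opNorm y).trans ?_
      gcongr
      exact (hG z (by simpa using hz)).trans (le_abs_self _)
    · intro y z
      exact (ψ.hasFDerivAt.comp_hasDerivAt z (hUd z y)).differentiableAt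
    · intro y
      have := ψ.hasFDerivAt.comp_hasDerivAt (0 : ℂ) (hUd 0 y)
      rwa [hT0] at this
  have key := sq_abstract (φ := ψ) (o := e) (m := m + m) hJ h1
    (fun a y => by simp only [add_apply, h.comm a y])
    (fun a => by simp only [add_apply, h.comm a e, h.one])
    (fun a y u v hy hu' hv' => by
      simp only [add_apply, map_add, mul_add, add_mul, hz a y u v hy hu' hv', add_zero]) a
  simp only [add_apply, map_add] at key
  rw [← two_smul ℂ, ← two_smul ℂ] at key
  exact smul_right_injective _ two_ne_zero key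

end Pool.Agent.Lib.MP_92e372_an.JC
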