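import Pool.Agent.Lib.MP_92e372_an.JC.Basic

namespace Pool.Agent.Lib.MP_92e372_an.JC

open Finset Pool.Agent.Lib.MP_92e372_an.Gen

variable {B : Type*} [CStarAlgebra B] {J : Submodule ℂ B} {D : B →ₗ[ℂ] B} {C : ℝ}

/-- The defect of the Jordan derivation identity. -/
noncomputable def dfc (D : B →ₗ[ℂ] B) (b : B) : B := D (b * b) - b * D b - D b * b

/-- A map bounded on `J` that kills the unit and has the zero product property on `J`. -/
structure IsZP (J : Submodule ℂ B) (D : B →ₗ[ℂ] B) (C : ℝ) : Prop where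
  nonneg : 0 ≤ C
  bound : ∀ x ∈ J, ‖D x‖ ≤ C * ‖x‖
  one : D 1 = 0
  zero : ∀ b ∈ J, ∀ u v : B, IsSelfAdjoint b → u * b = 0 → b * v = 0 → u * D b * v = 0

theorem two_point (hJ : IsJC J) (hD : IsZP J D C)
    {b u v : B} (hbJ : b ∈ J) (hb : IsSelfAdjoint b) {c d : ℝ} (hu : u * b = (c : ℂ) • u)
    (hv : b * v = (d : ℂ) • v) : u * dfc D b * v = 0 := by
  have key := hD.zero (b * b - ((c : ℂ) + d) • b + ((c : ℂ) * d) • (1 : B))
    (J.add_mem (J.sub_mem (hJ.sq b hbJ) (J.smul_mem _ hbJ)) (J.smul_mem _ hJ.one)) u v ?_ ?_ ?_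
  · simp only [map_add, map_sub, map_smul, hD.one, smul_zero, add_zero] at key
    have e1 : u * (b * D b) * v = (c : ℂ) • (u * D b * v) := by
      rw [← mul_assoc, hu, smul_mul_assoc, smul_mul_assoc]
    have e2 : u * (D b * b) * v = (d : ℂ) • (u * D b * v) := by
      rw [mul_assoc, mul_assoc, hv, mul_smul_comm, mul_smul_comm, mul_assoc]
    rw [dfc, mul_sub, mul_sub, sub_mul, sub_mul, e1, e2]
    rw [mul_sub, sub_mul, mul_smul_comm, smul_mul_assoc, add_smul] at key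
    rw [← key]
    abel
  · rw [IsSelfAdjoint]
    simp [hb.star_eq, star_smul]
  · rw [mul_add, mul_sub, ← mul_assoc, hu, smul_mul_assoc, hu, mul_smul_comm, hu, mul_smul_comm,
      mul_one]
    module
  · rw [add_mul, sub_mul, mul_assoc, hv, mul_smul_comm, hv, smul_mul_assoc, hv, smul_mul_assoc,
      one_mul]
    module

theorem norm_dfc_sub (hJ : IsJC J) (hD : IsZP J D C) {h k : B} (hhJ : h ∈ J) (hkJ : k ∈ J)
    (hk : ‖k‖ ≤ 1) : ‖dfc D h - dfc D (h + k)‖ ≤ 3 * C * (2 * ‖h‖ + 1) := by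
  have e : dfc D h - dfc D (h + k) = -(D (h * k + k * h) + D (k * k))
      + (h * D k + k * D h + k * D k) + (D k * h + D h * k + D k * k) := by
    simp only [dfc, mul_add, add_mul, map_add]
    abel
  have hD0 := hD.nonneg
  have hh := norm_nonneg h
  have m1 : ‖h * k‖ ≤ ‖h‖ := (norm_mul_le _ _).trans (by nlinarith)
  have m2 : ‖k * h‖ ≤ ‖h‖ := (norm_mul_le _ _).trans (by nlinarith)
  have a1 : ‖D (h * k + k * h)‖ ≤ C * (2 * ‖h‖) :=
    (hD.bound _ (hJ.toIsJS.jordan hhJ hkJ)).trans (by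
      gcongr; exact (norm_add_le _ _).trans (by linarith))
  have a3 : ‖D (k * k)‖ ≤ C * 1 := (hD.bound _ (hJ.sq k hkJ)).trans (by
    gcongr; exact (norm_mul_le _ _).trans (by nlinarith [norm_nonneg k]))
  have dk : ‖D k‖ ≤ C := (hD.bound _ hkJ).trans (by nlinarith)
  have dh : ‖D h‖ ≤ C * ‖h‖ := hD.bound _ hhJ
  have b1 : ‖h * D k‖ ≤ C * ‖h‖ := (norm_mul_le _ _).trans (by nlinarith)
  have b2 : ‖k * D h‖ ≤ C * ‖h‖ := (norm_mul_le _ _).trans (by nlinarith [norm_nonneg (D h)])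
  have b3 : ‖k * D k‖ ≤ C := (norm_mul_le _ _).trans (by nlinarith [norm_nonneg (D k)])
  have c1 : ‖D k * h‖ ≤ C * ‖h‖ := (norm_mul_le _ _).trans (by nlinarith)
  have c2 : ‖D h * k‖ ≤ C * ‖h‖ := (norm_mul_le _ _).trans (by nlinarith [norm_nonneg (D h)])
  have c3 : ‖D k * k‖ ≤ C := (norm_mul_le _ _).trans (by nlinarith [norm_nonneg (D k)])
  rw [e]
  refine (norm_add₃_le).trans ?_
  rw [norm_neg]
  have s1 := norm_add_le (D (h * k + k * h)) (D (k * k))
  have s2 := norm_add₃_le (a := h * D k) (b := k * D h) (c := k * D k)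
  have s3 := norm_add₃_le (a := D k * h) (b := D h * k) (c := D k * k)
  nlinarith

variable [Nontrivial B]

theorem norm_dfc_le (hJ : IsJC J) (hD : IsZP J D C) {h : B} (hhJ : h ∈ J)
    (hh : IsSelfAdjoint h) : ‖dfc D h‖ ≤ 9 * C * (2 * ‖h‖ + 1) := by
  have hC0 := hD.nonneg
  let Φ : C(spectrum ℝ h, ℝ) →⋆ₐ[ℝ] B := cfcHom hh
  have hΦn : ∀ f : C(spectrum ℝ h, ℝ), (∀ x, |f x| ≤ 1) → ‖Φ f‖ ≤ 1 := fun f hf => by
    rw [norm_cfcHom h f hh]
    exact (ContinuousMap.norm_le _ zero_le_one).2 hf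
  have hΦs : ∀ f, IsSelfAdjoint (Φ f) := fun f => cfcHom_predicate hh f
  have hΦJ : ∀ f, Φ f ∈ J := fun f => cfcHom_mem hJ.closed hh (hJ.toIsJS.pow hhJ) f
  let X : C(spectrum ℝ h, ℝ) := (ContinuousMap.id ℝ).restrict (spectrum ℝ h)
  have hX : Φ X = h := cfcHom_id hh
  let κ : ℕ → C(spectrum ℝ h, ℝ) := fun s => if hs : s < 9 then
    ⟨fun x => kap s (Int.fract x.1), (continuous_kap hs).comp continuous_subtype_val⟩ else 0
  let χ : ℕ → C(spectrum ℝ h, ℝ) := fun s => if hs : s < 9 then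
    ⟨fun x => bum s (Int.fract x.1), (continuous_bum hs).comp continuous_subtype_val⟩ else 0
  have hκ : ∀ s < 9, ∀ x, κ s x = kap s (Int.fract x.1) := fun s hs x => by simp [κ, hs]
  have hχ : ∀ s < 9, ∀ x, χ s x = bum s (Int.fract x.1) := fun s hs x => by simp [χ, hs]
  let f : ℕ → ℤ → C(spectrum ℝ h, ℝ) := fun s i =>
    (1 - χ s) * ⟨fun x => tent ((X + κ s) x - i), continuous_tent.comp (by fun_prop)⟩
  obtain ⟨M, hM⟩ := exists_nat_ge (‖h‖ + 1)
  have hf1 : ∀ s < 9, ∀ i : ℤ, f s i * (X + κ s) = (i : ℝ) • f s i := by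
    intro s hs i
    ext x
    have := piece_mul s x.1 i
    simpa [f, hκ s hs, hχ s hs, X] using this
  have hf2 : ∀ s < 9, ∑ i ∈ Icc (-(M : ℤ)) M, f s i = 1 - χ s := by
    intro s hs
    ext x
    have hx : |x.1| + 1 ≤ M := by
      have := spectrum.norm_le_norm_of_mem x.2
      rw [Real.norm_eq_abs] at this
      linarith
    have := sum_piece s x.1 M hx
    simpa [f, hκ s hs, hχ s hs, X] using this
  have hzero : ∀ s < 9, (1 - Φ (χ s)) * dfc D (h + Φ (κ s)) * (1 - Φ (χ s)) = 0 := by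
    intro s hs
    have e1 : 1 - Φ (χ s) = ∑ i ∈ Icc (-(M : ℤ)) M, Φ (f s i) := by
      rw [← map_sum, hf2 s hs, map_sub, map_one]
    have e2 : h + Φ (κ s) = Φ (X + κ s) := by rw [map_add, hX]
    rw [e1, e2, sum_mul, sum_mul]
    refine sum_eq_zero fun i _ => ?_
    rw [mul_sum]
    refine sum_eq_zero fun j _ => ?_
    refine two_point hJ hD (hΦJ _) (hΦs _) (c := i) (d := j) ?_ ?_
    · rw [← map_mul, hf1 s hs, map_smul, Complex.coe_smul]
    · rw [← map_mul, mul_comm, hf1 s hs, map_smul, Complex.coe_smul]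
  set E := dfc D h with hE
  set T := 3 * C * (2 * ‖h‖ + 1) with hT
  have hp : ∀ s < 9, ‖1 - Φ (χ s)‖ ≤ 1 := by
    intro s hs
    rw [← map_one Φ, ← map_sub]
    refine hΦn _ fun x => ?_
    simp only [ContinuousMap.sub_apply, ContinuousMap.one_apply, hχ s hs]
    rw [abs_le]
    constructor <;> linarith [bum_nonneg s (Int.fract x.1), bum_le_one s (Int.fract x.1)]
  have hb : ∀ s ∈ range 9, ‖(1 - Φ (χ s)) * E * (1 - Φ (χ s))‖ ≤ T := by
    intro s hs
    rw [mem_range] at hs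
    have e : (1 - Φ (χ s)) * E * (1 - Φ (χ s))
        = (1 - Φ (χ s)) * (E - dfc D (h + Φ (κ s))) * (1 - Φ (χ s)) := by
      rw [mul_sub (1 - Φ (χ s)) E, sub_mul ((1 - Φ (χ s)) * E), hzero s hs, sub_zero]
    have h2 := norm_dfc_sub hJ hD hhJ (hΦJ (κ s)) (hΦn _ fun x => by
      rw [hκ s hs]; exact abs_kap_le s x.1)
    have h3 := hp s hs
    rw [e]
    calc _ ≤ ‖1 - Φ (χ s)‖ * ‖E - dfc D (h + Φ (κ s))‖ * ‖1 - Φ (χ s)‖ :=
          (norm_mul_le _ _).trans (by gcongr; exact norm_mul_le _ _)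
      _ ≤ 1 * T * 1 := by gcongr
      _ = T := by ring
  have hsum : ‖∑ s ∈ range 9, (1 - Φ (χ s)) * E * (1 - Φ (χ s))‖ ≤ 9 * T := by
    refine (norm_sum_le _ _).trans ((sum_le_sum hb).trans ?_)
    simp
  have hS : ‖∑ s ∈ range 9, Φ (χ s)‖ ≤ 1 := by
    rw [← map_sum]
    refine hΦn _ fun x => ?_
    rw [ContinuousMap.sum_apply, sum_congr rfl fun s hs => hχ s (mem_range.1 hs) x]
    exact sum_bum_le _
  have hconj := norm_sum_conj_le (fun s => Φ (χ s)) (fun s _ => hΦs _)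
    (fun s hs => hΦn _ fun x => by
      rw [hχ s (mem_range.1 hs), abs_of_nonneg (bum_nonneg _ _)]; exact bum_le_one _ _)
    (fun s hs t ht hne => by
      rw [← map_mul, ← map_zero Φ]
      congr 1
      ext x
      simp only [ContinuousMap.mul_apply, hχ s (mem_range.1 hs), hχ t (mem_range.1 ht)]
      exact bum_mul_bum hne _) E
  have e : (9 : ℂ) • E = ∑ s ∈ range 9, (1 - Φ (χ s)) * E * (1 - Φ (χ s))
      + ((∑ s ∈ range 9, Φ (χ s)) * E + E * (∑ s ∈ range 9, Φ (χ s)))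
      - ∑ s ∈ range 9, Φ (χ s) * E * Φ (χ s) := by
    rw [sum_mul, mul_sum, ← sum_add_distrib, ← sum_add_distrib, ← sum_sub_distrib,
      sum_congr rfl (g := fun _ => E) (fun s _ => by noncomm_ring)]
    simp only [sum_const, card_range]
    rw [← Nat.cast_smul_eq_nsmul ℂ]
    norm_num
  have hn : 9 * ‖E‖ ≤ 9 * T + (‖E‖ + ‖E‖) + 3 * ‖E‖ := by
    have h9 : ‖(9 : ℂ) • E‖ = 9 * ‖E‖ := by rw [norm_smul]; simp
    rw [← h9, e]
    refine (norm_sub_le _ _).trans (add_le_add ((norm_add_le _ _).trans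
      (add_le_add hsum ((norm_add_le _ _).trans (add_le_add ?_ ?_)))) hconj)
    · exact (norm_mul_le _ _).trans (by nlinarith [norm_nonneg E])
    · exact (norm_mul_le _ _).trans (by nlinarith [norm_nonneg E])
  have hT0 : 0 ≤ T := by positivity
  nlinarith

theorem dfc_eq_zero (hJ : IsJC J) (hD : IsZP J D C) {h : B} (hhJ : h ∈ J)
    (hh : IsSelfAdjoint h) : dfc D h = 0 := by
  have hC00 := hD.nonneg
  rw [← norm_le_zero_iff]
  refine le_of_forall_pos_le_add fun ε hε => ?_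
  set C' := 9 * C * (2 * ‖h‖ + 1) with hC
  have hC0 : 0 ≤ C' := by positivity
  set t : ℝ := C' / ε + 1 with ht
  have ht1 : 1 ≤ t := by rw [ht]; have := div_nonneg hC0 hε.le; linarith
  have hsa : IsSelfAdjoint ((t : ℂ) • h) := by
    rw [IsSelfAdjoint, star_smul, hh.star_eq]; simp
  have h2 := norm_dfc_le hJ hD (J.smul_mem _ hhJ) hsa
  have e : dfc D ((t : ℂ) • h) = ((t : ℂ) * t) • dfc D h := by
    simp only [dfc, smul_mul_assoc, mul_smul_comm, map_smul, smul_smul, smul_sub]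
  rw [e, norm_smul, norm_smul, norm_mul, Complex.norm_real,
    Real.norm_of_nonneg (by linarith)] at h2
  have h3 : t * t * ‖dfc D h‖ ≤ t * C' := by
    refine h2.trans ?_
    rw [hC]
    nlinarith [mul_nonneg hC00 (sub_nonneg.2 ht1)]
  have h4 : t * ‖dfc D h‖ ≤ C' := by
    rw [mul_assoc] at h3
    exact le_of_mul_le_mul_left h3 (by linarith)
  have h5 : C' ≤ t * ε := by rw [ht, add_mul, div_mul_cancel₀ _ hε.ne']; linarith
  rw [zero_add]
  exact le_of_mul_le_mul_left (h4.trans h5) (by linarith)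

/-- The Jordan derivation identity on `J`. -/
theorem IsZP.jordan (hJ : IsJC J) (hD : IsZP J D C) {x y : B} (hx : x ∈ J) (hy : y ∈ J) :
    D (x * y + y * x) = D x * y + x * D y + D y * x + y * D x := by
  have hsa : ∀ x ∈ J, ∀ y ∈ J, IsSelfAdjoint x → IsSelfAdjoint y →
      D (x * y + y * x) = D x * y + x * D y + D y * x + y * D x := by
    intro x hxJ y hyJ hx hy
    have e1 := dfc_eq_zero hJ hD hxJ hx
    have e2 := dfc_eq_zero hJ hD hyJ hy
    have e3 := dfc_eq_zero hJ hD (J.add_mem hxJ hyJ) (hx.add hy)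
    simp only [dfc, mul_add, add_mul, map_add] at e1 e2 e3 ⊢
    linear_combination (norm := abel1) e3 - e1 - e2
  have a1 := hsa _ (hJ.re hx) _ (hJ.re hy) (realPart x).2 (realPart y).2
  have a2 := hsa _ (hJ.re hx) _ (hJ.im hy) (realPart x).2 (imaginaryPart y).2
  have a3 := hsa _ (hJ.im hx) _ (hJ.re hy) (imaginaryPart x).2 (realPart y).2
  have a4 := hsa _ (hJ.im hx) _ (hJ.im hy) (imaginaryPart x).2 (imaginaryPart y).2
  rw [← realPart_add_I_smul_imaginaryPart x, ← realPart_add_I_smul_imaginaryPart y]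
  simp only [mul_add, add_mul, map_add, map_smul, smul_mul_assoc, mul_smul_comm] at a1 a2 a3 a4 ⊢
  linear_combination (norm := module) a1 + Complex.I • a2 + Complex.I • a3
    + (Complex.I * Complex.I) • a4

theorem IsZP.map_pow (hJ : IsJC J) (hD : IsZP J D C) {x : B} (hx : x ∈ J)
    (hc : Commute x (D x)) : ∀ n : ℕ, D (x ^ (n + 1)) = ((n : ℂ) + 1) • (x ^ n * D x)
  | 0 => by simp
  | n + 1 => by
    have ih := hD.map_pow hJ hx hc n
    have h1 := hD.jordan hJ hx (hJ.toIsJS.pow hx (n + 1))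
    rw [ih, ← pow_succ, ← pow_succ', map_add, ← (hc.pow_left (n + 1)).eq, mul_smul_comm,
      smul_mul_assoc, ← mul_assoc, ← pow_succ', mul_assoc, ← hc.eq, ← mul_assoc, ← pow_succ] at h1
    have h2 : (2 : ℂ) • D (x ^ (n + 1 + 1))
        = (2 : ℂ) • ((((n + 1 : ℕ) : ℂ) + 1) • (x ^ (n + 1) * D x)) := by
      push_cast
      linear_combination (norm := module) h1
    exact smul_right_injective _ two_ne_zero h2

omit [Nontrivial B] in
theorem IsZP.hasSum (hD : IsZP J D C) {f : ℕ → B} {s : B} (hf : ∀ n, f n ∈ J) (hs : s ∈ J)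
    (h : HasSum f s) : HasSum (fun n => D (f n)) (D s) := by
  unfold HasSum at h ⊢
  rw [tendsto_iff_norm_sub_tendsto_zero] at h ⊢
  have h2 := h.const_mul C
  rw [mul_zero] at h2
  refine squeeze_zero (fun _ => norm_nonneg _) (fun t => ?_) h2
  rw [← map_sum, ← map_sub]
  exact hD.bound _ (J.sub_mem (J.sum_mem fun n _ => hf n) hs)

open NormedSpace in
theorem IsZP.eq_zero_of_commute (hJ : IsJC J) (hD : IsZP J D C) {b : B} (hbJ : b ∈ J)
    (hb : IsSelfAdjoint b) (hc : Commute b (D b)) : D b = 0 := by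
  let _ : NormedAlgebra ℚ B := .restrictScalars ℚ ℂ B
  have key : ∀ t : ℝ, |t| * ‖D b‖ ≤ C := by
    intro t
    set x : B := (Complex.I * t) • b with hx
    have hxJ : x ∈ J := J.smul_mem _ hbJ
    have hcx : Commute x (D x) := by
      rw [hx, map_smul]
      exact (hc.smul_left _).smul_right _
    have hs := exp_series_hasSum_exp' (𝕂 := ℂ) x
    have h2 := hD.hasSum (fun n => J.smul_mem _ (hJ.toIsJS.pow hxJ n)) (hJ.toIsJS.exp hxJ) hs
    rw [← hasSum_nat_add_iff' 1] at h2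
    have h3 := hs.mul_right (D x)
    have e : (fun n : ℕ => D (((n + 1).factorial⁻¹ : ℂ) • x ^ (n + 1)))
        = fun n : ℕ => ((n.factorial⁻¹ : ℂ) • x ^ n) * D x := by
      funext n
      rw [map_smul, hD.map_pow hJ hxJ hcx, smul_smul, smul_mul_assoc, Nat.factorial_succ]
      congr 1
      have : (n : ℂ) + 1 ≠ 0 := by exact_mod_cast Nat.succ_ne_zero n
      have : (n.factorial : ℂ) ≠ 0 := by exact_mod_cast n.factorial_ne_zero
      push_cast
      field_simp
    rw [e] at h2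
    have h4 := h2.unique h3
    simp only [Finset.range_one, Finset.sum_singleton, pow_zero, map_smul, hD.one, smul_zero,
      sub_zero] at h4
    have hu : exp x ∈ unitary B := by
      apply exp_mem_unitary_of_mem_skewAdjoint
      rw [skewAdjoint.mem_iff, hx, star_smul, hb.star_eq, ← neg_smul]
      congr 1
      simp
    have h5 : ‖D (exp x)‖ ≤ C := by
      have := hD.bound _ (hJ.toIsJS.exp hxJ)
      rwa [CStarRing.norm_of_mem_unitary hu, mul_one] at this
    rw [h4, CStarRing.norm_mem_unitary_mul _ hu, hx, map_smul, norm_smul] at h5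
    simpa using h5
  by_contra hne
  have hp : 0 < ‖D b‖ := norm_pos_iff.2 hne
  have hC0 := hD.nonneg
  have := key (C / ‖D b‖ + 1)
  rw [abs_of_nonneg (by positivity), add_mul, div_mul_cancel₀ _ hp.ne'] at this
  linarith

end Pool.Agent.Lib.MP_92e372_an.JC
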