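import Pool.Agent.Lib.MP_92e372_an.JC.Jordan
import Pool.Agent.Lib.MP_92e372_an.JC.Family

namespace Pool.Agent.Lib.MP_92e372_an.JC

open Filter Topology Metric NormedSpace Pool.Agent.Lib.MP_92e372_an.Gen

variable {B : Type*} [CStarAlgebra B] [Nontrivial B]

/-- A selfadjoint element that commutes with its commutator with `b` commutes with `b`. -/
theorem commute_of_double {b p : B} (hp : IsSelfAdjoint p)
    (h : p * (p * b - b * p) = (p * b - b * p) * p) : p * b = b * p := by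
  let D : B →L[ℂ] B := (ContinuousLinearMap.mul ℂ B).flip b - ContinuousLinearMap.mul ℂ B b
  have hD : ∀ x, D x = x * b - b * x := fun x => by simp [D]
  have hJ : IsJordanDer D := fun x y => by
    simp only [hD]
    noncomm_ring
  have := hJ.eq_zero_of_commute (by rw [hD]; simp) hp (by rw [hD]; exact h)
  rwa [hD, sub_eq_zero] at this

section Abstract

variable {E : Type*} [NormedAddCommGroup E] [NormedSpace ℂ E] [CompleteSpace E]
  {φ : E →L[ℂ] B} {o : E} {m : E →L[ℂ] E →L[ℂ] E}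
  (hJ : IsJC (LinearMap.range (φ : E →ₗ[ℂ] B))) (h1 : φ o = 1)
  (hsymm : ∀ a y, m a y = m y a) (hone : ∀ a, m a o = a + a)
  (hz : ∀ a y u v, IsSelfAdjoint (φ y) → u * φ y = 0 → φ y * v = 0 → u * φ (m a y) * v = 0)

omit [Nontrivial B] in
include hJ h1 hone hz in
theorem exists_der (a : E) : ∃ (D : B →ₗ[ℂ] B) (C : ℝ),
    IsZP (LinearMap.range (φ : E →ₗ[ℂ] B)) D C ∧
      ∀ y, D (φ y) = φ (m a y) - (φ a * φ y + φ y * φ a) := by
  obtain ⟨C, hC, hC'⟩ := exists_preimage_le φ hJ.closed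
  let δ : E →ₗ[ℂ] B := (φ : E →ₗ[ℂ] B) ∘ₗ (m a : E →ₗ[ℂ] E)
    - (LinearMap.mulLeft ℂ (φ a) + LinearMap.mulRight ℂ (φ a)) ∘ₗ (φ : E →ₗ[ℂ] B)
  have hδ : ∀ y, δ y = φ (m a y) - (φ a * φ y + φ y * φ a) := fun y => by simp [δ]
  have hker : ∀ y, φ y = 0 → δ y = 0 := fun y hy => by
    have := hz a y 1 1 (by rw [hy]; exact IsSelfAdjoint.zero B) (by simp [hy]) (by simp [hy])
    rw [one_mul, mul_one] at this
    rw [hδ, this, hy]
    simp
  obtain ⟨σ, hσ⟩ := (φ : E →ₗ[ℂ] B).rangeRestrict.exists_rightInverse_of_surjective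
    (φ : E →ₗ[ℂ] B).range_rangeRestrict
  obtain ⟨D, hD⟩ := LinearMap.exists_extend (δ ∘ₗ σ)
  have hDφ : ∀ y, D (φ y) = δ y := fun y => by
    have e1 : D (φ y) = δ (σ ⟨φ y, y, rfl⟩) := LinearMap.congr_fun hD ⟨φ y, y, rfl⟩
    have e2 : φ (σ ⟨φ y, y, rfl⟩) = φ y :=
      congrArg Subtype.val (LinearMap.congr_fun hσ ⟨φ y, y, rfl⟩)
    rw [e1, ← sub_eq_zero, ← map_sub]
    exact hker _ (by rw [map_sub, e2, sub_self])
  refine ⟨D, ‖φ‖ * (‖m a‖ * C) + 2 * ‖φ a‖, ⟨by positivity, fun x hx => ?_, ?_, ?_⟩,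
    fun y => by rw [hDφ, hδ]⟩
  · obtain ⟨y, rfl, hy⟩ := hC' x hx
    rw [hDφ, hδ]
    have n1 : ‖φ (m a y)‖ ≤ ‖φ‖ * (‖m a‖ * (C * ‖φ y‖)) := by
      refine (φ.le_opNorm _).trans ?_
      gcongr
      refine ((m a).le_opNorm y).trans ?_
      gcongr
    have n2 := norm_mul_le (φ a) (φ y)
    have n3 := norm_mul_le (φ y) (φ a)
    have n4 := norm_add_le (φ a * φ y) (φ y * φ a)
    have n5 := norm_sub_le (φ (m a y)) (φ a * φ y + φ y * φ a)
    nlinarith
  · rw [← h1, hDφ, hδ, hone, h1, map_add]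
    simp
  · rintro _ ⟨y, rfl⟩ u v hy hu hv
    have hy' : IsSelfAdjoint (φ y) := hy
    have hu' : u * φ y = 0 := hu
    have hv' : φ y * v = 0 := hv
    show u * D (φ y) * v = 0
    rw [hDφ, hδ, mul_sub, sub_mul, hz a y u v hy' hu' hv', mul_add, add_mul,
      ← mul_assoc u (φ y), hu', mul_assoc u, mul_assoc (φ a), hv']
    simp

include hJ h1 hsymm hone hz

theorem sq_of_selfAdjoint (a : E) (hsa : IsSelfAdjoint (φ a)) :
    φ (m a a) = φ a * φ a + φ a * φ a := by
  choose D C hD hDφ using exists_der hJ h1 hone hz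
  have hs : ∀ x y, D x (φ y) = D y (φ x) := fun x y => by
    rw [hDφ, hDφ, hsymm, add_comm]
  set b := φ a with hbdef
  have hbJ : b ∈ LinearMap.range (φ : E →ₗ[ℂ] B) := ⟨a, rfl⟩
  set q := D a b with hq
  have hqJ : q ∈ LinearMap.range (φ : E →ₗ[ℂ] B) := by
    rw [hq, hbdef, hDφ]
    exact Submodule.sub_mem _ ⟨_, rfl⟩ (hJ.toIsJS.jordan hbJ hbJ)
  have hcomm : ∀ c ∈ LinearMap.range (φ : E →ₗ[ℂ] B),
      q * (c * b - b * c) = (c * b - b * c) * q := by
    rintro _ ⟨y, rfl⟩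
    show q * (φ y * b - b * φ y) = (φ y * b - b * φ y) * q
    have hcJ : φ y ∈ LinearMap.range (φ : E →ₗ[ℂ] B) := ⟨y, rfl⟩
    obtain ⟨a2, ha2⟩ := hJ.toIsJS.jordan hbJ hbJ
    obtain ⟨w, hw⟩ := hJ.toIsJS.jordan hbJ hcJ
    replace ha2 : φ a2 = b * b + b * b := ha2
    replace hw : φ w = b * φ y + φ y * b := hw
    have e0 := hs a2 w
    rw [hw, ha2, (hD a2).jordan hJ hbJ hcJ, (hD w).jordan hJ hbJ hbJ] at e0
    have e1 : D a2 b = q * b + b * q + q * b + b * q := by
      rw [hbdef, hs, ha2, (hD a).jordan hJ hbJ hbJ]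
    have e2 : D a2 (φ y) = D y b * b + b * D y b + D y b * b + b * D y b := by
      rw [hs, ha2, (hD y).jordan hJ hbJ hbJ]
    have e3 : D w b = q * φ y + b * D y b + D y b * b + φ y * q := by
      rw [hbdef, hs, hw, (hD a).jordan hJ hbJ hcJ, hs a y]
    rw [e1, e2, e3] at e0
    have e4 : (2 : ℂ) • (q * (φ y * b - b * φ y)) = (2 : ℂ) • ((φ y * b - b * φ y) * q) := by
      rw [two_smul, two_smul]
      linear_combination (norm := noncomm_ring) -e0
    exact smul_right_injective _ two_ne_zero e4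
  have hcomm' : ∀ c ∈ LinearMap.range (φ : E →ₗ[ℂ] B),
      star q * (c * b - b * c) = (c * b - b * c) * star q := by
    intro c hc
    have := congrArg star (hcomm _ (hJ.star c hc))
    simp only [star_mul, star_sub, star_star, hsa.star_eq] at this
    linear_combination (norm := noncomm_ring) this
  have hre : (realPart q : B) * b = b * realPart q := by
    refine commute_of_double (realPart q).2 ?_
    have e1 := hcomm _ (hJ.re hqJ)
    have e2 := hcomm' _ (hJ.re hqJ)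
    generalize (realPart q : B) * b - b * realPart q = p at e1 e2 ⊢
    rw [realPart_apply_coe, smul_mul_assoc, mul_smul_comm, add_mul, mul_add, e1, e2]
  have him : (imaginaryPart q : B) * b = b * imaginaryPart q := by
    refine commute_of_double (imaginaryPart q).2 ?_
    have e1 := hcomm _ (hJ.im hqJ)
    have e2 := hcomm' _ (hJ.im hqJ)
    generalize (imaginaryPart q : B) * b - b * imaginaryPart q = p at e1 e2 ⊢
    rw [imaginaryPart_apply_coe, smul_mul_assoc, mul_smul_comm, smul_mul_assoc, mul_smul_comm,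
      sub_mul, mul_sub, e1, e2]
  have h3 : Commute b q := by
    rw [← realPart_add_I_smul_imaginaryPart q, Commute, SemiconjBy, mul_add, add_mul,
      mul_smul_comm, smul_mul_assoc, hre, him]
  have h4 := (hD a).eq_zero_of_commute hJ hbJ hsa h3
  rw [hbdef, hDφ] at h4
  exact sub_eq_zero.1 h4

theorem sq_abstract (a : E) : φ (m a a) = φ a * φ a + φ a * φ a := by
  obtain ⟨a1, ha1⟩ := hJ.re (x := φ a) ⟨a, rfl⟩
  replace ha1 : φ a1 = (realPart (φ a) : B) := ha1
  let a2 : E := (-Complex.I) • (a - a1)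
  have ha : a = a1 + Complex.I • a2 := by
    simp only [a2, smul_smul, mul_neg, Complex.I_mul_I, neg_neg, one_smul]
    abel
  have ha2 : φ a2 = (imaginaryPart (φ a) : selfAdjoint B).1 := by
    have h := realPart_add_I_smul_imaginaryPart (φ a)
    simp only [a2, map_smul, map_sub, ha1]
    rw [← sub_eq_iff_eq_add'.2 h.symm |>.symm, smul_smul]
    simp
  have s1 : IsSelfAdjoint (φ a1) := ha1 ▸ (realPart (φ a)).2
  have s2 : IsSelfAdjoint (φ a2) := ha2 ▸ (imaginaryPart (φ a)).2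
  have e1 := sq_of_selfAdjoint hJ h1 hsymm hone hz a1 s1
  have e2 := sq_of_selfAdjoint hJ h1 hsymm hone hz a2 s2
  have e3 := sq_of_selfAdjoint hJ h1 hsymm hone hz (a1 + a2) (by rw [map_add]; exact s1.add s2)
  rw [ha]
  simp only [mul_add, add_mul, map_add, map_smul, smul_mul_assoc, mul_smul_comm,
    add_apply, smul_apply] at e3 ⊢
  linear_combination (norm := module) e1 + Complex.I • (e3 - e1 - e2)
    + (Complex.I * Complex.I) • e2

end Abstract

end Pool.Agent.Lib.MP_92e372_an.JC
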